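import Pool.Agent.Run7.h670.MY.Stm

/-!
# Piece CS of project MY (helper670), by helper834: Cauchy-Schwarz on the plane
-/

set_option autoImplicit false
set_option linter.all false

open MeasureTheory Set Filter
open scoped ENNReal RealInnerProductSpace

namespace Run7.h834.MY

open Pool.Agent.Run7.h670.MY

/-- Cauchy-Schwarz -/
theorem cs_sq {α : Type} [MeasurableSpace α] (μ : Measure α) (F g : α → ℝ≥0∞) (hF : Measurable F)
    (hg : Measurable g) : (∫⁻ z, F z * g z ∂μ) ^ 2 ≤ (∫⁻ z, F z ^ 2 ∂μ) * ∫⁻ z, g z ^ 2 ∂μ := by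
  have h := ENNReal.lintegral_mul_le_Lp_mul_Lq μ Real.HolderConjugate.two_two hF.aemeasurable
    hg.aemeasurable
  have h2 := pow_le_pow_left' h 2
  refine (le_of_eq ?_).trans (h2.trans (le_of_eq ?_))
  · rfl
  · rw [mul_pow, ← ENNReal.rpow_natCast, ← ENNReal.rpow_natCast, ← ENNReal.rpow_mul,
      ← ENNReal.rpow_mul]
    norm_num

/-- the coordinates `(r, (s, t)) ↦ s a + t b + r e` -/
def J (a b e : E) (z : ℝ × (ℝ × ℝ)) : E := z.2.1 • a + z.2.2 • b + z.1 • e

theorem J_mp (a b e : E) (h : Orthonormal ℝ ![a, b, e]) :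
    MeasurePreserving (J a b e) volume volume := by
  have hcard : Fintype.card (Fin 3) = Module.finrank ℝ E := by
    rw [finrank_euclideanSpace]
  let B0 : Module.Basis (Fin 3) ℝ E := basisOfOrthonormalOfCardEqFinrank h hcard
  have hB0 : ⇑B0 = ![a, b, e] := coe_basisOfOrthonormalOfCardEqFinrank h hcard
  have hB0' : Orthonormal ℝ B0 := by rw [hB0]; exact h
  let B : OrthonormalBasis (Fin 3) ℝ E := B0.toOrthonormalBasis hB0'
  have hB : ⇑B = ![a, b, e] := by
    rw [Module.Basis.coe_toOrthonormalBasis, hB0]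
  have h1 : MeasurePreserving (fun z : ℝ × (ℝ × ℝ) => (z.1, (MeasurableEquiv.finTwoArrow (α := ℝ)).symm z.2))
      volume volume :=
    (MeasurePreserving.id volume).prod (volume_preserving_finTwoArrow ℝ).symm
  have h2 := (volume_preserving_piFinSuccAbove (fun _ : Fin 3 => ℝ) 2).symm
  have h3 := PiLp.volume_preserving_toLp (Fin 3)
  have h4 := B.measurePreserving_repr_symm
  have h5 := h4.comp (h3.comp (h2.comp h1))
  have h6 : J a b e = (B.repr.symm : EuclideanSpace ℝ (Fin 3) → E) ∘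
      ((WithLp.toLp 2 : (Fin 3 → ℝ) → EuclideanSpace ℝ (Fin 3)) ∘
      ((MeasurableEquiv.piFinSuccAbove (fun _ : Fin 3 => ℝ) 2).symm ∘
        fun z : ℝ × (ℝ × ℝ) => (z.1, (MeasurableEquiv.finTwoArrow (α := ℝ)).symm z.2))) := by
    funext z
    simp only [Function.comp_apply]
    rw [← OrthonormalBasis.sum_repr_symm, Fin.sum_univ_three, hB]
    rfl
  rw [h6]
  exact h5

theorem inner_J (a b e : E) (h : Orthonormal ℝ ![a, b, e]) (z : ℝ × (ℝ × ℝ)) :
    ⟪a, J a b e z⟫ = z.2.1 ∧ ⟪b, J a b e z⟫ = z.2.2 := by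
  have n0 : ⟪a, a⟫ = 1 := by
    have := h.1 0
    rw [real_inner_self_eq_norm_sq]
    have h1 : ‖a‖ = 1 := this
    rw [h1]; norm_num
  have n1 : ⟪b, b⟫ = 1 := by
    have := h.1 1
    rw [real_inner_self_eq_norm_sq]
    have h1 : ‖b‖ = 1 := this
    rw [h1]; norm_num
  have i01 : ⟪a, b⟫ = 0 := h.2 (i := 0) (j := 1) (by decide)
  have i02 : ⟪a, e⟫ = 0 := h.2 (i := 0) (j := 2) (by decide)
  have i10 : ⟪b, a⟫ = 0 := h.2 (i := 1) (j := 0) (by decide)
  have i12 : ⟪b, e⟫ = 0 := h.2 (i := 1) (j := 2) (by decide)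
  constructor
  · rw [J, inner_add_right, inner_add_right, inner_smul_right, inner_smul_right, inner_smul_right,
      n0, i01, i02]
    ring
  · rw [J, inner_add_right, inner_add_right, inner_smul_right, inner_smul_right, inner_smul_right,
      n1, i10, i12]
    ring

theorem lint_J (a b e : E) (h : Orthonormal ℝ ![a, b, e]) (G : E → ℝ≥0∞) (hG : Measurable G) :
    ∫⁻ x, G x = ∫⁻ z : ℝ × ℝ, ∫⁻ r : ℝ, G (J a b e (r, z)) := by
  have hJ := J_mp a b e h
  rw [← hJ.lintegral_comp hG, Measure.volume_eq_prod]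
  exact lintegral_prod_symm' _ (hG.comp hJ.measurable)

theorem t_CS : S_CS := by
  intro f g a b e hf hg h
  have hJ := J_mp a b e h
  have hJm := hJ.measurable
  -- the function on the plane
  obtain ⟨F, hF⟩ : ∃ F : ℝ × ℝ → ℝ≥0∞, F = fun z => ∫⁻ r, f (J a b e (r, z)) := ⟨_, rfl⟩
  have hfJ : Measurable fun z : ℝ × (ℝ × ℝ) => f (J a b e z) := hf.comp hJm
  have hfr : ∀ z : ℝ × ℝ, Measurable fun r : ℝ => f (J a b e (r, z)) := fun z =>
    hfJ.comp (measurable_id.prodMk measurable_const)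
  have hFm : Measurable F := by
    rw [hF]
    exact hfJ.lintegral_prod_left'
  have hgx : Measurable fun x : E => g ⟪a, x⟫ ⟪b, x⟫ := by
    have h1 : Measurable fun x : E => (⟪a, x⟫, ⟪b, x⟫) :=
      (Measurable.const_inner measurable_id).prodMk (Measurable.const_inner measurable_id)
    exact hg.comp h1
  -- the left side
  have hl : ∫⁻ x, f x * g ⟪a, x⟫ ⟪b, x⟫ = ∫⁻ z : ℝ × ℝ, F z * g z.1 z.2 := by
    have h0 := lint_J a b e h (fun x => f x * g ⟪a, x⟫ ⟪b, x⟫) (hf.mul hgx)
    rw [h0]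
    refine lintegral_congr fun z => ?_
    rw [hF]
    simp only
    rw [← lintegral_mul_const _ (hfr z)]
    refine lintegral_congr fun r => ?_
    have h1 := inner_J a b e h (r, z)
    rw [h1.1, h1.2]
  -- the right side
  have hr : lineEn f e = ∫⁻ z : ℝ × ℝ, F z ^ 2 := by
    have hm : Measurable fun x : E => f x * ∫⁻ t : ℝ, f (x + t • e) := by
      refine hf.mul ?_
      have h1 : Measurable fun y : E × ℝ => f (y.1 + y.2 • e) :=
        hf.comp (measurable_fst.add (measurable_snd.smul_const e))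
      exact h1.lintegral_prod_right'
    have h0 := lint_J a b e h (fun x => f x * ∫⁻ t : ℝ, f (x + t • e)) hm
    rw [lineEn, h0]
    refine lintegral_congr fun z => ?_
    have h1 : ∀ r : ℝ, ∫⁻ t : ℝ, f (J a b e (r, z) + t • e) = F z := by
      intro r
      rw [hF]
      simp only
      rw [← lintegral_add_left_eq_self (fun t => f (J a b e (t, z))) r]
      refine lintegral_congr fun t => ?_
      congr 1
      simp only [J, add_smul]
      abel
    have h2 : ∀ r : ℝ, f (J a b e (r, z)) * ∫⁻ t : ℝ, f (J a b e (r, z) + t • e) =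
        f (J a b e (r, z)) * F z := fun r => by rw [h1 r]
    rw [lintegral_congr h2, lintegral_mul_const _ (hfr z), sq]
    rw [hF]
  rw [hl, hr]
  exact cs_sq volume F (fun z => g z.1 z.2) hFm hg

end Run7.h834.MY
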