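import Pool.Agent.Run7.h670.MY.Stm

/-!
# Piece INT of project MY (helper670), by helper834: `∫ h³ = π c² / 2` over the plane
-/

set_option autoImplicit false
set_option linter.all false

open MeasureTheory Set Filter
open scoped ENNReal Topology

namespace Run7.h834.MY

open Pool.Agent.Run7.h670.MY

/-- the radial integral -/
theorem radial (c : ℝ) (hc : 0 < c) :
    ∫⁻ r in Ioi (0 : ℝ), ENNReal.ofReal (r * (c ^ 2 / (c ^ 2 + r ^ 2)) ^ 3) =
      ENNReal.ofReal (c ^ 2 / 4) := by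
  obtain ⟨G, hG⟩ : ∃ G : ℝ → ℝ, G = fun r => -(c ^ 6 / 4) * ((c ^ 2 + r ^ 2) ^ 2)⁻¹ := ⟨_, rfl⟩
  have hpos : ∀ r : ℝ, 0 < c ^ 2 + r ^ 2 := fun r => by positivity
  have hder : ∀ r ∈ Ici (0 : ℝ), HasDerivAt G (r * (c ^ 2 / (c ^ 2 + r ^ 2)) ^ 3) r := by
    intro r _
    have h1 : HasDerivAt (fun r : ℝ => c ^ 2 + r ^ 2) (2 * r) r := by
      have := (hasDerivAt_pow 2 r).const_add (c ^ 2)
      simpa using this
    have h2 := ((h1.pow 2).inv (pow_ne_zero 2 (hpos r).ne')).const_mul (-(c ^ 6 / 4))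
    rw [hG]
    refine h2.congr_deriv ?_
    have h3 := (hpos r).ne'
    simp only [Nat.cast_ofNat, Pi.pow_apply]
    field_simp
    ring
  have hnn : ∀ r ∈ Ioi (0 : ℝ), 0 ≤ r * (c ^ 2 / (c ^ 2 + r ^ 2)) ^ 3 := by
    intro r hr
    have h1 : (0 : ℝ) < r := hr
    have := hpos r
    positivity
  have hlim : Tendsto G atTop (𝓝 0) := by
    rw [hG]
    have h1 : Tendsto (fun r : ℝ => (c ^ 2 + r ^ 2) ^ 2) atTop atTop := by
      apply Tendsto.comp (tendsto_pow_atTop (by norm_num : (2 : ℕ) ≠ 0))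
      exact tendsto_atTop_add_const_left _ _ (tendsto_pow_atTop (by norm_num))
    have h2 := h1.inv_tendsto_atTop.const_mul (-(c ^ 6 / 4))
    rw [mul_zero] at h2
    exact h2
  have hint := integrableOn_Ioi_deriv_of_nonneg' hder hnn hlim
  have hval := integral_Ioi_of_hasDerivAt_of_nonneg' hder hnn hlim
  rw [← ofReal_integral_eq_lintegral_ofReal hint
    ((ae_restrict_iff' measurableSet_Ioi).2 (Eventually.of_forall hnn)), hval, hG]
  congr 1
  field_simp
  ring

theorem t_INT : S_INT := by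
  intro p q c hc
  -- translation
  have h1 := lintegral_sub_right_eq_self (μ := (volume : Measure (ℝ × ℝ)))
    (fun z : ℝ × ℝ => ENNReal.ofReal ((c ^ 2 / (c ^ 2 + z.1 ^ 2 + z.2 ^ 2)) ^ 3)) (p, q)
  have h2 : ∀ z : ℝ × ℝ, ENNReal.ofReal (hh p q c z.1 z.2 ^ 3) =
      ENNReal.ofReal ((c ^ 2 / (c ^ 2 + (z - (p, q)).1 ^ 2 + (z - (p, q)).2 ^ 2)) ^ 3) :=
    fun z => rfl
  rw [lintegral_congr h2, h1, ← lintegral_comp_polarCoord_symm]
  have h3 : ∫⁻ z in polarCoord.target, ENNReal.ofReal z.1 •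
      ENNReal.ofReal ((c ^ 2 / (c ^ 2 + (polarCoord.symm z).1 ^ 2 +
        (polarCoord.symm z).2 ^ 2)) ^ 3) =
      ∫⁻ z in polarCoord.target, ENNReal.ofReal (z.1 * (c ^ 2 / (c ^ 2 + z.1 ^ 2)) ^ 3) := by
    apply setLIntegral_congr_fun polarCoord.open_target.measurableSet
    intro z hz
    have hz1 : 0 < z.1 := by
      rw [polarCoord_target] at hz
      exact hz.1
    have h4 : c ^ 2 + (polarCoord.symm z).1 ^ 2 + (polarCoord.symm z).2 ^ 2 = c ^ 2 + z.1 ^ 2 := by
      rw [polarCoord_symm_apply]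
      simp only
      have := Real.cos_sq_add_sin_sq z.2
      linear_combination z.1 ^ 2 * this
    show ENNReal.ofReal z.1 • ENNReal.ofReal _ = _
    rw [h4, smul_eq_mul, ← ENNReal.ofReal_mul hz1.le]
  rw [h3, polarCoord_target, Measure.volume_eq_prod, ← Measure.prod_restrict]
  have hm : Measurable fun r : ℝ => ENNReal.ofReal (r * (c ^ 2 / (c ^ 2 + r ^ 2)) ^ 3) := by
    apply Measurable.ennreal_ofReal
    apply measurable_id.mul
    apply Measurable.pow_const
    exact measurable_const.div (measurable_const.add (measurable_id.pow_const 2))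
  have h5 := lintegral_prod_mul (μ := volume.restrict (Ioi (0 : ℝ)))
    (ν := volume.restrict (Ioo (-Real.pi) Real.pi)) hm.aemeasurable
    (measurable_const (a := (1 : ℝ≥0∞))).aemeasurable
  simp only [mul_one] at h5
  rw [h5, radial c hc, lintegral_one, Measure.restrict_apply_univ, Real.volume_Ioo,
    ← ENNReal.ofReal_mul (by positivity)]
  congr 1
  ring

end Run7.h834.MY
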