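import Pool.Agent.Run7.h670.MY.Stm

/-!
# Pieces POLY and NUM of project MY (helper670), by helper834
-/

set_option autoImplicit false
set_option linter.all false

namespace Run7.h834.MY

open Pool.Agent.Run7.h670.MY

theorem t_POLY : S_POLY := by
  intro h h0 h1
  obtain ⟨t, ht⟩ : ∃ t, t = Real.sqrt h := ⟨_, rfl⟩
  have ht0 : 0 ≤ t := by rw [ht]; exact Real.sqrt_nonneg h
  have ht2 : t ^ 2 = h := by rw [ht]; exact Real.sq_sqrt h0
  have ht1 : t ≤ 1 := by rw [ht]; exact Real.sqrt_le_one.mpr h1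
  have h3 : h ^ (3 / 2 : ℝ) = t ^ 3 := by
    rw [ht, Real.sqrt_eq_rpow, ← Real.rpow_natCast, ← Real.rpow_mul h0]
    norm_num
  rw [h3, ← ht2]
  have key : 0 ≤ 8 * t ^ 3 - 9 * t ^ 2 + t + 1 := by
    nlinarith [mul_nonneg ht0 (sq_nonneg (t - 0.69)), sq_nonneg (t - 0.6884)]
  nlinarith [mul_nonneg (sub_nonneg.2 ht1) key]

theorem t_NUM : S_NUM := by
  unfold S_NUM cB
  have hpi : 0 < Real.pi := Real.pi_pos
  obtain ⟨x, hx⟩ : ∃ x, x = (3 / (4 * Real.pi)) ^ (1 / 3 : ℝ) := ⟨_, rfl⟩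
  obtain ⟨y, hy⟩ : ∃ y, y = (2 : ℝ) ^ (1 / 3 : ℝ) := ⟨_, rfl⟩
  obtain ⟨w, hw⟩ : ∃ w, w = (6 * Real.pi ^ 2) ^ (2 / 3 : ℝ) := ⟨_, rfl⟩
  have hx0 : 0 ≤ x := by rw [hx]; positivity
  have hy0 : 0 ≤ y := by rw [hy]; positivity
  have hw0 : 0 ≤ w := by rw [hw]; positivity
  have hx3 : x ^ 3 = 3 / (4 * Real.pi) := by
    rw [hx, ← Real.rpow_natCast, ← Real.rpow_mul (by positivity)]
    norm_num
  have hy3 : y ^ 3 = 2 := by
    rw [hy, ← Real.rpow_natCast, ← Real.rpow_mul (by positivity)]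
    norm_num
  have hw3 : w ^ 3 = (6 * Real.pi ^ 2) ^ 2 := by
    rw [hw, ← Real.rpow_natCast, ← Real.rpow_mul (by positivity)]
    norm_num
  rw [← hx, ← hy, ← hw]
  have hL : Real.pi * (17 / 8 : ℝ) ^ 2 / 3 * (2 * Real.pi)⁻¹ * (6 / 5 * (4 * Real.pi * x)) * y =
      (289 / 80 * Real.pi) * (x * y) := by
    field_simp
    ring
  rw [hL]
  have hl0 : 0 ≤ (289 / 80 * Real.pi) * (x * y) := by positivity
  have hr0 : 0 ≤ 3 / 5 * w := by positivity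
  rw [← pow_le_pow_iff_left₀ hl0 hr0 (n := 3) (by norm_num)]
  have e1 : ((289 / 80 * Real.pi) * (x * y)) ^ 3 =
      (289 / 80) ^ 3 * (3 / 2) * Real.pi ^ 2 := by
    rw [mul_pow, mul_pow x y, hx3, hy3]
    field_simp
    ring
  have e2 : (3 / 5 * w) ^ 3 = (27 / 125) * 36 * Real.pi ^ 4 := by
    rw [mul_pow, hw3]
    ring
  rw [e1, e2]
  have hp : (9.8 : ℝ) < Real.pi ^ 2 := by
    have := Real.pi_gt_d2
    nlinarith
  have hp2 : 0 < Real.pi ^ 2 := by positivity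
  nlinarith [mul_pos hp2 (sub_pos.2 hp)]

end Run7.h834.MY
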